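import Mathlib
import Pool.Agent.H524.LD.ParInf

/-!
# Large gaps between the primes `a ^ 2 + X` in characteristic two (helper440)
-/

set_option autoImplicit false

namespace Pool.Agent.H440.GL

open Polynomial
open scoped Classical
open Pool.Agent.H985.Chow (mob lc)

variable {K : Type} [Field K] [Fintype K] [CharP K 2]

omit [Fintype K] in
/-- The derivative near a square. -/
lemma lc_near {a b : K[X]} {d : ℕ} (ha : a.Monic) (had : a.natDegree = d) (hd : 1 ≤ d)
    (h3 : 3 * (a - b ^ 2).natDegree ≤ d) : lc a (X * derivative a ^ 3) = 0 := by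
  have h2 : (2 : K[X]) = 0 := Pool.Agent.H524.LD.two_KX
  set h := a - b ^ 2 with hh
  have hder : derivative a = derivative h := by
    rw [hh, derivative_sub, derivative_pow]
    have : (C ((2 : ℕ) : K) : K[X]) = 0 := by
      have h5 : ((2 : ℕ) : K) = 0 := CharP.cast_eq_zero K 2
      rw [h5, C_0]
    rw [this]; ring
  rcases Nat.eq_zero_or_pos h.natDegree with h0 | h0
  · have h1 : derivative a = 0 := by rw [hder, derivative_of_natDegree_zero h0]
    rw [h1, lc]
    simp
  · have h1 : (derivative a).natDegree ≤ h.natDegree - 1 := by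
      rw [hder]; exact natDegree_derivative_le h
    have h4 : (X * derivative a ^ 3).natDegree ≤ d - 2 := by
      refine natDegree_mul_le.trans ?_
      have := natDegree_pow_le_of_le 3 h1
      rw [natDegree_X]
      omega
    have h5 : (X * derivative a ^ 3) %ₘ a = X * derivative a ^ 3 := by
      rw [modByMonic_eq_self_iff ha]
      apply degree_lt_degree
      rw [had]
      omega
    rw [lc, h5, had]
    apply coeff_eq_zero_of_natDegree_lt
    omega

/-- The sign. -/
lemma mob_near {a b : K[X]} {d : ℕ} (hd : 1 ≤ d) (hde : Even d) (hb : b.Monic)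
    (hbd : 2 * b.natDegree = d) (h3 : 3 * (a - b ^ 2).natDegree ≤ d) :
    mob (a ^ 2 + X) = if 4 ∣ d ∨ Fintype.card K % 3 = 1 then 1 else -1 := by
  have hb2 : (b ^ 2).natDegree = d := by rw [hb.natDegree_pow]; omega
  have hab : a = b ^ 2 + (a - b ^ 2) := by ring
  have hlt : (a - b ^ 2).degree < (b ^ 2).degree := by
    apply degree_lt_degree
    rw [hb2]; omega
  have ha : a.Monic := by
    rw [hab]; exact (hb.pow 2).add_of_left hlt
  have had : a.natDegree = d := by
    rw [hab, natDegree_add_eq_left_of_degree_lt hlt, hb2]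
  have hlc := lc_near ha had hd h3
  have hp := Pool.Agent.H524.LD.parinf a ha (by rw [had]; exact hd)
  rw [hlc, had, zero_add] at hp
  obtain ⟨m, hm⟩ : ∃ m, d = 2 * m := by
    obtain ⟨m, hm⟩ := hde; exact ⟨m, by omega⟩
  have hch : d.choose 2 = m * (2 * m - 1) := by
    rw [Nat.choose_two_right, hm]
    have : 2 * m * (2 * m - 1) = 2 * (m * (2 * m - 1)) := by ring
    rw [this, Nat.mul_div_cancel_left _ (by norm_num)]
  have h2K : (2 : K) = 0 := Pool.Agent.H524.LD.two_K
  have hsolv : (∃ x : K, x ^ 2 + x = ((d.choose 2 : ℕ) : K)) ↔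
      (4 ∣ d ∨ Fintype.card K % 3 = 1) := by
    constructor
    · rintro ⟨x, hx⟩
      by_contra hcon
      rw [not_or] at hcon
      obtain ⟨hd4, hq⟩ := hcon
      obtain ⟨j, hj⟩ : ∃ j, m = 2 * j + 1 := by
        rcases Nat.even_or_odd m with ⟨j, hj⟩ | ⟨j, hj⟩
        · exact absurd ⟨j, by omega⟩ hd4
        · exact ⟨j, hj⟩
      have h1 : ((d.choose 2 : ℕ) : K) = 1 := by
        rw [hch, hj]
        have : (2 * j + 1) * (2 * (2 * j + 1) - 1) = 2 * (4 * j ^ 2 + 3 * j) + 1 := by
          have : 2 * (2 * j + 1) - 1 = 4 * j + 1 := by omega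
          rw [this]; ring
        rw [this]
        push_cast
        rw [h2K]; ring
      rw [h1] at hx
      have hx3 : x ^ 3 = 1 := by linear_combination (x - 1) * hx + (x - 1) * h2K
      have hx1 : x ≠ 1 := by
        intro h
        rw [h] at hx
        have : (1 : K) = 0 := by linear_combination (-1 : K) * hx + h2K
        exact one_ne_zero this
      have hx0 : x ≠ 0 := by
        intro h; rw [h] at hx3; norm_num at hx3
      have ho : orderOf (Units.mk0 x hx0) = 3 := by
        apply orderOf_eq_prime
        · ext; simpa using hx3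
        · intro h
          apply hx1
          have := congrArg Units.val h
          simpa using this
      have hdv : 3 ∣ Fintype.card Kˣ := by
        rw [← ho]; exact orderOf_dvd_card
      rw [Fintype.card_units] at hdv
      have := Fintype.card_pos (α := K)
      omega
    · intro h
      rcases Nat.even_or_odd m with ⟨j, hj⟩ | ⟨j, hj⟩
      · refine ⟨0, ?_⟩
        rw [hch, hj]
        have : (j + j) * (2 * (j + j) - 1) = 2 * (j * (2 * (j + j) - 1)) := by ring
        rw [this]
        push_cast
        rw [h2K]; ring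
      · have hq : Fintype.card K % 3 = 1 := by
          rcases h with ⟨k, hk⟩ | h
          · omega
          · exact h
        have h1 : 3 ∣ Fintype.card Kˣ := by
          rw [Fintype.card_units]
          have := Fintype.card_pos (α := K)
          omega
        obtain ⟨ζ, hζ⟩ := exists_prime_orderOf_dvd_card 3 h1
        have hz3 : (ζ : K) ^ 3 = 1 := by
          have : ζ ^ 3 = 1 := by rw [← hζ]; exact pow_orderOf_eq_one ζ
          rw [← Units.val_pow_eq_pow_val, this, Units.val_one]
        have hz1 : (ζ : K) - 1 ≠ 0 := by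
          intro h
          have : ζ = 1 := Units.ext (by rw [Units.val_one]; exact sub_eq_zero.mp h)
          rw [this, orderOf_one] at hζ
          omega
        have hq2 : (ζ : K) ^ 2 + ζ + 1 = 0 := by
          have h2 : ((ζ : K) - 1) * ((ζ : K) ^ 2 + ζ + 1) = 0 := by linear_combination hz3
          rcases mul_eq_zero.mp h2 with h | h
          · exact absurd h hz1
          · exact h
        refine ⟨(ζ : K), ?_⟩
        rw [hch, hj]
        have h5 : (2 * j + 1) * (2 * (2 * j + 1) - 1) = 2 * (4 * j ^ 2 + 3 * j) + 1 := by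
          have : 2 * (2 * j + 1) - 1 = 4 * j + 1 := by omega
          rw [this]; ring
        rw [h5]
        push_cast
        rw [h2K]
        linear_combination hq2 - h2K
  rcases hp with ⟨h1, h5⟩ | ⟨h1, h5⟩
  · rw [h1, if_pos (hsolv.mp h5)]
  · rw [h1, if_neg (fun h => h5 (hsolv.mpr h))]

omit [Fintype K] [CharP K 2] in
/-- From the Möbius function to the factors. -/
lemma of_mob_one {F : K[X]} (h : mob F = 1) :
    Squarefree F ∧ Even (Multiset.card (UniqueFactorizationMonoid.factors F)) := by
  rw [mob] at h
  by_cases hs : Squarefree F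
  · rw [if_pos hs] at h
    refine ⟨hs, ?_⟩
    by_contra ho
    rw [Nat.not_even_iff_odd] at ho
    rw [ho.neg_one_pow] at h
    norm_num at h
  · rw [if_neg hs] at h
    norm_num at h

omit [Fintype K] [CharP K 2] in
lemma of_mob_neg_one {F : K[X]} (h : mob F = -1) :
    Squarefree F ∧ Odd (Multiset.card (UniqueFactorizationMonoid.factors F)) := by
  rw [mob] at h
  by_cases hs : Squarefree F
  · rw [if_pos hs] at h
    refine ⟨hs, ?_⟩
    by_contra ho
    rw [Nat.not_odd_iff_even] at ho
    rw [ho.neg_one_pow] at h
    norm_num at h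
  · rw [if_neg hs] at h
    norm_num at h

end Pool.Agent.H440.GL
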